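import Pool.Agent.Y645.UL.Stm2

/-!
# From subvarieties to ideals and back
-/

namespace Pool.Agent.Y645.UL

open MvPolynomial Module

variable {k ι : Type} [Field k]

theorem van_prime_nonempty {A : Set (ι → kˣ)} (h : (van A).IsPrime) : A.Nonempty := by
  by_contra hA
  rw [Set.not_nonempty_iff_eq_empty] at hA
  refine h.ne_top ((Ideal.eq_top_iff_one _).2 ?_)
  intro x hx
  rw [hA] at hx
  exact absurd hx (Set.notMem_empty x)

theorem X_notMem_van {A : Set (ι → kˣ)} (h : (van A).IsPrime) (j : ι) :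
    (X j : MvPolynomial ι k) ∉ van A := by
  intro hX
  obtain ⟨x, hx⟩ := van_prime_nonempty h
  have h1 := hX x hx
  rw [eval_X] at h1
  exact (x j).ne_zero h1

theorem defect_eq [Fintype ι] (hREL : S_REL) (hDIM : S_DIM) {L : Type} [Field L] [Algebra k L]
    (y : ι → Lˣ) (A : Set (ι → kˣ))
    (h : ∀ f : MvPolynomial ι k, f ∈ van A ↔ aeval (fun j => (y j : L)) f = 0) :
    defect A = (mrk y : ℤ) - (tdu k y : ℤ) := by
  rw [defect, hREL k L ι y A h, hDIM k L ι y A h]
  have := mrk_add y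
  omega

theorem rel_singleton [Fintype ι] (x : ι → kˣ) : rel {x} = Lam x := by
  ext a
  rw [mem_Lam]
  constructor
  · intro h
    exact h x rfl
  · intro h y hy
    rw [Set.mem_singleton_iff] at hy
    rw [hy]
    exact h

theorem isSubvar_singleton (x : ι → kˣ) : IsSubvar ({x} : Set (ι → kˣ)) := by
  refine ⟨⟨{f | eval (fun j => (x j : k)) f = 0}, ?_⟩, ?_⟩
  · ext y
    constructor
    · intro hy f hf
      rw [Set.mem_singleton_iff] at hy
      rw [hy]
      exact hf
    · intro hy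
      rw [Set.mem_singleton_iff]
      funext j
      have h1 := hy (X j - C (x j : k)) (by simp)
      rw [map_sub, eval_X, eval_C, sub_eq_zero] at h1
      exact Units.ext h1
  · have h1 : van ({x} : Set (ι → kˣ)) = RingHom.ker (eval (fun j => (x j : k))) := by
      ext f
      rw [RingHom.mem_ker]
      constructor
      · intro h
        exact h x rfl
      · intro h y hy
        rw [Set.mem_singleton_iff] at hy
        rw [hy]
        exact h
    rw [h1]
    exact RingHom.ker_isPrime _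

theorem isClosedT_lineP (k I : Type) [Field k] : IsClosedT (lineP k I) := by
  refine ⟨Set.range (fun i : I => (X (Sum.inl i) + X (Sum.inr i) - 1 :
    MvPolynomial (I ⊕ I) k)), ?_⟩
  ext x
  constructor
  · rintro hx _ ⟨i, rfl⟩
    rw [map_sub, map_add, eval_X, eval_X, map_one, hx i, sub_self]
  · intro hx i
    have h1 := hx _ ⟨i, rfl⟩
    rw [map_sub, map_add, eval_X, eval_X, map_one, sub_eq_zero] at h1
    exact h1

/-- The hypothesis on the points of the powers of the line. -/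
def LP (k : Type) [Field k] : Prop :=
  ∀ (I : Type) [Fintype I], ∃ 𝒜 : Set (Set (I ⊕ I → kˣ)), 𝒜.Finite ∧
    (∀ A ∈ 𝒜, IsSubvar A ∧ A ⊆ lineP k I ∧ defect A < (Fintype.card I : ℤ)) ∧
    ∀ x ∈ lineP k I, Fintype.card I < finrank ℤ (rel {x}) → ∃ A ∈ 𝒜, x ∈ A

theorem HH_of_LP (hREL : S_REL) (hDIM : S_DIM) (hGEN : S_GEN) (hTOR : S_TOR) (k : Type) [Field k]
    [IsAlgClosed k] [CharZero k] (h : LP k) : HH k := by
  classical
  intro κ _
  obtain ⟨𝒜, hfin, h1, h2⟩ := h κ
  refine ⟨van '' 𝒜, hfin.image _, ?_, ?_⟩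
  · rintro _ ⟨A, hA, rfl⟩
    obtain ⟨hsub, hV, hdef⟩ := h1 A hA
    obtain ⟨F, hF1, hF2, a, ha⟩ := hGEN k (κ ⊕ κ) (van A) hsub.2 (X_notMem_van hsub.2)
    refine ⟨F, hF1, hF2, a, ?_, ?_, ha⟩
    · intro i
      have h3 : (X (Sum.inl i) + X (Sum.inr i) - 1 : MvPolynomial (κ ⊕ κ) k) ∈ van A := by
        intro x hx
        rw [map_sub, map_add, eval_X, eval_X, map_one, hV hx i, sub_self]
      have h4 := (ha _).1 h3
      rw [map_sub, map_add, aeval_X, aeval_X, map_one, sub_eq_zero] at h4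
      exact h4
    · have h3 := defect_eq hREL hDIM a A ha
      omega
  · intro F _ _ y hy hlt
    by_contra hcon
    push Not at hcon
    choose! fp hfp1 hfp2 using hcon
    have hne : aeval (fun j => (y j : F)) (∏ A ∈ hfin.toFinset, fp (van A)) ≠ 0 := by
      rw [map_prod]
      exact Finset.prod_ne_zero_iff.2 fun A hA => hfp2 _ ⟨A, hfin.mem_toFinset.1 hA, rfl⟩
    obtain ⟨x, hx1, hx2, hx3⟩ := hTOR k F (κ ⊕ κ) y _ hne
    have hx : x ∈ lineP k κ := by
      intro i
      have h4 := hx1 (X (Sum.inl i) + X (Sum.inr i) - 1) (by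
        rw [map_sub, map_add, aeval_X, aeval_X, map_one, hy i, sub_self])
      rw [map_sub, map_add, aeval_X, aeval_X, map_one, sub_eq_zero] at h4
      exact h4
    have hr : Fintype.card κ < finrank ℤ (rel {x}) := by
      rw [rel_singleton]
      have h5 := mrk_add x
      rw [Fintype.card_sum] at h5
      omega
    obtain ⟨A, hA, hxA⟩ := h2 x hx hr
    refine hx2 ?_
    rw [map_prod]
    exact Finset.prod_eq_zero (hfin.mem_toFinset.2 hA) (hfp1 _ ⟨A, hA, rfl⟩ x hxA)

theorem FinDef_of_AA (hREL : S_REL) (hDIM : S_DIM) (hGEN : S_GEN) (hNULL : S_NULL) (k : Type)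
    [Field k] [IsAlgClosed k] (h : AA k) (ι : Type) [Fintype ι] (V : Set (ι → kˣ)) (δ : ℤ)
    (hV : IsClosedT V) : FinDef V δ := by
  obtain ⟨J, hJ⟩ := hV
  obtain ⟨Q, hQ, h1, h2⟩ := h ι δ (van V)
  let Zq : Ideal (MvPolynomial ι k) → Set (ι → kˣ) := fun q =>
    {x | ∀ f ∈ q, eval (fun j => (x j : k)) f = 0}
  refine ⟨Zq '' Q, hQ.image _, ?_, ?_⟩
  · rintro _ ⟨q, hq, rfl⟩
    obtain ⟨hq1, L, hL1, hL2, y, hy1, hy2⟩ := h1 q hq
    have hZ : Zq q = ZZ k y := by
      ext x
      constructor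
      · intro hx f hf
        exact hx f ((hy1 f).2 hf)
      · intro hx f hf
        exact hx f ((hy1 f).1 hf)
    have hv : ∀ f : MvPolynomial ι k, f ∈ van (Zq q) ↔ aeval (fun j => (y j : L)) f = 0 := by
      intro f
      rw [hZ]
      exact hNULL k L ι y f
    refine ⟨⟨⟨q, rfl⟩, ?_⟩, ?_, ?_⟩
    · have h3 : van (Zq q) = RingHom.ker (aeval (fun j => (y j : L)) :
          MvPolynomial ι k →ₐ[k] L) := by
        ext f
        rw [RingHom.mem_ker]
        exact hv f
      rw [h3]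
      exact RingHom.ker_isPrime _
    · intro x hx
      rw [hJ]
      intro f hf
      refine hx f (hq1 ?_)
      intro x' hx'
      rw [hJ] at hx'
      exact hx' f hf
    · rw [defect_eq hREL hDIM y _ hv]
      exact hy2
  · intro A hA hAV hd
    obtain ⟨L, hL1, hL2, y, hy⟩ := hGEN k ι (van A) hA.2 (X_notMem_van hA.2)
    obtain ⟨q, hq, hqA⟩ := h2 (van A) (fun f hf x hx => hf x (hAV hx))
      ⟨L, hL1, hL2, y, hy, by rw [← defect_eq hREL hDIM y A hy]; exact hd⟩
    exact ⟨Zq q, ⟨q, hq, rfl⟩, fun x hx f hf => hqA hf x hx⟩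

theorem LP_of_FinDef {k : Type} [Field k]
    (h : ∀ (I : Type) [Fintype I], FinDef (lineP k I) ((Fintype.card I : ℤ) - 1)) : LP k := by
  intro I _
  obtain ⟨𝒜, h1, h2, h3⟩ := h I
  refine ⟨𝒜, h1, fun A hA => ?_, ?_⟩
  · obtain ⟨h4, h5, h6⟩ := h2 A hA
    exact ⟨h4, h5, by omega⟩
  · intro x hx hr
    obtain ⟨A, hA, hxA⟩ := h3 {x} (isSubvar_singleton x) (Set.singleton_subset_iff.2 hx) (by
      rw [defect, Fintype.card_sum]
      push_cast
      omega)
    exact ⟨A, hA, hxA rfl⟩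

end Pool.Agent.Y645.UL
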