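import Mathlib

/-!
# Ranks of lattices of multiplicative relations
-/

namespace Pool.Agent.Y645.UL

open Module

variable {N ι : Type} [Fintype N] [Fintype ι]

/-- The solutions over `F` of the homogeneous linear equations with coefficients in `W`. -/
def perp (F : Type) [Field F] (W : Submodule ℤ (N → ℤ)) : Submodule F (N → F) where
  carrier := {ω | ∀ a ∈ W, ∑ l, (a l : F) * ω l = 0}
  add_mem' := by
    intro x y hx hy a ha
    simp only [Pi.add_apply, mul_add, Finset.sum_add_distrib, hx a ha, hy a ha, add_zero]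
  zero_mem' := by
    intro a _
    simp
  smul_mem' := by
    intro c x hx a ha
    have h1 : ∑ l, (a l : F) * (c • x) l = c * ∑ l, (a l : F) * x l := by
      rw [Finset.mul_sum]
      refine Finset.sum_congr rfl fun l _ => ?_
      simp only [Pi.smul_apply, smul_eq_mul]
      ring
    rw [h1, hx a ha, mul_zero]

theorem mem_perp {F : Type} [Field F] {W : Submodule ℤ (N → ℤ)} {ω : N → F} :
    ω ∈ perp F W ↔ ∀ a ∈ W, ∑ l, (a l : F) * ω l = 0 := Iff.rfl

theorem perp_anti {F : Type} [Field F] {W W' : Submodule ℤ (N → ℤ)} (h : W ≤ W') :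
    perp F W' ≤ perp F W := fun _ hω a ha => hω a (h ha)

theorem finrank_perp (F : Type) [Field F] [CharZero F] (W : Submodule ℤ (N → ℤ)) :
    finrank F (perp F W) + finrank ℤ W = Fintype.card N := by
  classical
  let b := Module.finBasis ℤ W
  let v : Fin (finrank ℤ W) → N → ℤ := fun i => (b i : N → ℤ)
  have hv : LinearIndependent ℤ v := by
    have := b.linearIndependent.map' W.subtype (Submodule.ker_subtype W)
    exact this
  have hvF : LinearIndependent F (fun i => algebraMap ℤ F ∘ v i) :=
    linearIndependent_algebraMap_comp_iff.2 hv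
  let A : Matrix (Fin (finrank ℤ W)) N F := Matrix.of fun i n => (v i n : F)
  have hA : A.rank = finrank ℤ W := by
    have h1 : LinearIndependent F A.row := by
      convert! hvF using 2
    have := LinearIndependent.rank_matrix h1
    rwa [Fintype.card_fin] at this
  have hker : perp F W = LinearMap.ker A.mulVecLin := by
    ext ω
    rw [mem_perp, LinearMap.mem_ker, Matrix.mulVecLin_apply]
    constructor
    · intro h
      ext i
      exact h (v i) (b i).2
    · intro h a ha
      have h2 : ∀ w : W, ∑ l, (((w : N → ℤ) l : ℤ) : F) * ω l = 0 := by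
        intro w
        have h3 := b.sum_repr w
        have h4 : (w : N → ℤ) = ∑ i, b.repr w i • v i := by
          have h8 := congrArg W.subtype h3
          rw [map_sum] at h8
          simp only [map_smul] at h8
          exact h8.symm
        rw [h4]
        have h5 : ∀ l, (((∑ i, b.repr w i • v i) l : ℤ) : F) * ω l =
            ∑ i, ((b.repr w i : ℤ) : F) * ((v i l : F) * ω l) := by
          intro l
          rw [Finset.sum_apply]
          push_cast
          rw [Finset.sum_mul]
          refine Finset.sum_congr rfl fun i _ => ?_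
          simp only [Pi.smul_apply, smul_eq_mul, Int.cast_mul]
          ring
        rw [Finset.sum_congr rfl fun l _ => h5 l, Finset.sum_comm]
        refine Finset.sum_eq_zero fun i _ => ?_
        rw [← Finset.mul_sum]
        have h6 : ∑ l, (v i l : F) * ω l = 0 := congrFun h i
        rw [h6, mul_zero]
      exact h2 ⟨a, ha⟩
  rw [hker]
  have h7 := LinearMap.finrank_range_add_finrank_ker A.mulVecLin
  rw [← Matrix.rank, hA, Module.finrank_pi] at h7
  omega

/-- duality -/
theorem exists_smul_mem (W : Submodule ℤ (N → ℤ)) (h : ∀ ω ∈ perp ℚ W, ω = 0) (e : N → ℤ) :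
    ∃ m : ℤ, m ≠ 0 ∧ m • e ∈ W := by
  have h1 : perp ℚ W = ⊥ := (Submodule.eq_bot_iff _).2 h
  have h2 := finrank_perp ℚ W
  rw [h1, finrank_bot, zero_add] at h2
  have h3 := W.finrank_quotient_add_finrank
  rw [h2, Module.finrank_pi] at h3
  have h4 : finrank ℤ ((N → ℤ) ⧸ W) = 0 := by omega
  rw [Module.finrank_eq_zero_iff_isTorsion] at h4
  obtain ⟨m, hm⟩ := @h4 (W.mkQ e)
  refine ⟨m, nonZeroDivisors.ne_zero m.2, ?_⟩
  have h5 : W.mkQ ((m : ℤ) • e) = 0 := by
    rw [map_smul]; exact hm
  rwa [Submodule.mkQ_apply, Submodule.Quotient.mk_eq_zero] at h5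

/-- the drop of the rank is larger for more elements -/
theorem drop {P Q : Submodule ℤ (N → ℤ)} (hPQ : P ≤ Q) (β : (ι → ℤ) →ₗ[ℤ] (N → ℤ)) :
    finrank ℤ P + finrank ℤ (Q.comap β) ≤ finrank ℤ Q + finrank ℤ (P.comap β) := by
  let P' : Submodule ℤ Q := P.comap Q.subtype
  have e1 : finrank ℤ P' = finrank ℤ P := (Submodule.comapSubtypeEquivOfLe hPQ).finrank_eq
  have h1 := P'.finrank_quotient_add_finrank
  let g0 : (Q.comap β) →ₗ[ℤ] Q := (β.domRestrict (Q.comap β)).codRestrict Q (fun c => c.2)
  let g : (Q.comap β) →ₗ[ℤ] (Q ⧸ P') := P'.mkQ ∘ₗ g0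
  have h2 := (LinearMap.ker g).finrank_quotient_add_finrank
  have e2 : finrank ℤ ((Q.comap β) ⧸ LinearMap.ker g) = finrank ℤ (LinearMap.range g) :=
    g.quotKerEquivRange.finrank_eq
  have h3 : finrank ℤ (LinearMap.range g) ≤ finrank ℤ (Q ⧸ P') := Submodule.finrank_le _
  have e3 : LinearMap.ker g = (P.comap β).comap (Q.comap β).subtype := by
    ext c
    simp only [LinearMap.mem_ker, g, LinearMap.comp_apply, Submodule.mkQ_apply,
      Submodule.Quotient.mk_eq_zero, P', Submodule.mem_comap, Submodule.subtype_apply]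
    rfl
  have e4 : finrank ℤ (LinearMap.ker g) = finrank ℤ (P.comap β) := by
    rw [e3]
    exact (Submodule.comapSubtypeEquivOfLe (Submodule.comap_mono hPQ)).finrank_eq
  omega

section mult

variable {G : Type} [CommGroup G]

/-- the homomorphism `a ↦ x ^ a` -/
def Phi (x : N → G) : (N → ℤ) →ₗ[ℤ] Additive G :=
  Fintype.linearCombination ℤ (fun j => Additive.ofMul (x j))

theorem Phi_apply (x : N → G) (a : N → ℤ) : Phi x a = Additive.ofMul (∏ j, x j ^ a j) := by
  simp only [Phi, Fintype.linearCombination_apply, ofMul_prod, ofMul_zpow]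

/-- the lattice of the multiplicative relations -/
def Lam (x : N → G) : Submodule ℤ (N → ℤ) := LinearMap.ker (Phi x)

theorem mem_Lam {x : N → G} {a : N → ℤ} : a ∈ Lam x ↔ ∏ j, x j ^ a j = 1 := by
  rw [Lam, LinearMap.mem_ker, Phi_apply]
  exact ofMul_eq_zero

/-- the rank of the group generated by the coordinates -/
noncomputable def mrk (x : N → G) : ℕ := finrank ℤ (LinearMap.range (Phi x))

theorem mrk_add (x : N → G) : mrk x + finrank ℤ (Lam x) = Fintype.card N := by
  have h2 := (LinearMap.ker (Phi x)).finrank_quotient_add_finrank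
  rw [(Phi x).quotKerEquivRange.finrank_eq, Module.finrank_pi] at h2
  exact h2

theorem Phi_comp [DecidableEq ι] {x : N → G} {y : ι → G} (β : (ι → ℤ) →ₗ[ℤ] (N → ℤ))
    (h : ∀ i, Phi x (β (Pi.single i 1)) = Additive.ofMul (y i)) :
    Phi y = Phi x ∘ₗ β := by
  refine LinearMap.pi_ext' fun i => ?_
  refine LinearMap.ext_ring ?_
  simp only [LinearMap.comp_apply, LinearMap.coe_single]
  rw [h i, Phi_apply]
  congr 1
  rw [Finset.prod_eq_single i]
  · simp
  · intro b _ hb
    simp [hb]
  · simp

end mult

end Pool.Agent.Y645.UL
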