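import Mathlib

/-!
# The transcendence degree of a tuple of elements of a field extension
-/

namespace Pool.Agent.Y645.UL

open Algebra AlgebraicIndependent

variable (k : Type) {L : Type} [Field k] [Field L] [Algebra k L] {ι κ : Type}

/-- The transcendence degree of `k(x)` over `k`. -/
noncomputable def td (x : ι → L) : ℕ :=
  ((AlgebraicIndependent.matroid k L).eRk (Set.range x)).toNat

variable {k}

theorem eRk_ne_top [Finite ι] (x : ι → L) :
    (AlgebraicIndependent.matroid k L).eRk (Set.range x) ≠ ⊤ := by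
  have h1 := (AlgebraicIndependent.matroid k L).eRk_le_encard (Set.range x)
  have h2 : (Set.range x).encard < ⊤ := Set.encard_lt_top_iff.2 (Set.finite_range x)
  exact (lt_of_le_of_lt h1 h2).ne

theorem coe_td [Finite ι] (x : ι → L) :
    ((td k x : ℕ) : ℕ∞) = (AlgebraicIndependent.matroid k L).eRk (Set.range x) :=
  ENat.natCast_toNat (eRk_ne_top x)

/-- a transcendence basis among the coordinates -/
theorem exists_basis [Finite ι] (x : ι → L) : ∃ B : Finset ι, B.card = td k x ∧
    AlgebraicIndependent k (fun b : B => x b) ∧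
    ∀ j, IsAlgebraic (adjoin k (x '' (B : Set ι))) (x j) := by
  classical
  have := Fintype.ofFinite ι
  obtain ⟨B0, hB0⟩ := (AlgebraicIndependent.matroid k L).exists_isBasis (Set.range x)
  have h1 := matroid_isBasis_iff.1 hB0
  obtain ⟨hi, hs, ha⟩ := h1
  choose s hs' using fun (b : B0) => hs b.2
  let B : Finset ι := Finset.univ.filter fun i => i ∈ Set.range s
  have hmem : ∀ i, i ∈ B ↔ ∃ b, s b = i := by simp [B]
  have hB : x '' (B : Set ι) = B0 := by
    ext y
    simp only [Set.mem_image, Finset.mem_coe, hmem]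
    constructor
    · rintro ⟨j, ⟨b, rfl⟩, rfl⟩
      rw [hs' b]; exact b.2
    · intro hy
      exact ⟨s ⟨y, hy⟩, ⟨⟨y, hy⟩, rfl⟩, hs' ⟨y, hy⟩⟩
  have hinjx : Set.InjOn x (B : Set ι) := by
    intro a ha b hb hab
    simp only [Finset.mem_coe, hmem] at ha hb
    obtain ⟨a', rfl⟩ := ha
    obtain ⟨b', rfl⟩ := hb
    rw [hs' a', hs' b'] at hab
    rw [Subtype.ext hab]
  refine ⟨B, ?_, ?_, ?_⟩
  · have h2 : ((B.card : ℕ) : ℕ∞) = (td k x : ℕ) := by
      rw [coe_td, hB0.eRk_eq_encard, ← hB, hinjx.encard_image, Set.encard_coe_eq_coe_finsetCard]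
    exact_mod_cast h2
  · have h3 : AlgebraicIndepOn k id (x '' (B : Set ι)) := by rw [hB]; exact hi
    let f : B → (x '' (B : Set ι)) := fun b => ⟨x b, ⟨b, b.2, rfl⟩⟩
    have h4 : Function.Injective f := by
      intro a b hab
      have h5 : x a = x b := congrArg Subtype.val hab
      exact Subtype.ext (hinjx a.2 b.2 h5)
    have h6 : AlgebraicIndependent k ((fun i : (x '' (B : Set ι)) => (i : L)) ∘ f) :=
      AlgebraicIndependent.comp h3 f h4
    exact h6
  · intro j
    rw [hB]
    exact ha _ ⟨j, rfl⟩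

theorem mem_closure_iff {S : Set L} {a : L} :
    a ∈ (AlgebraicIndependent.matroid k L).closure S ↔ IsAlgebraic (adjoin k S) a := by
  rw [matroid_closure_eq]
  rfl

theorem td_le_of_alg [Finite ι] [Finite κ] {x : ι → L} {y : κ → L}
    (h : ∀ i, IsAlgebraic (adjoin k (Set.range y)) (x i)) : td k x ≤ td k y := by
  have h1 : (td k x : ℕ∞) ≤ td k y := by
    rw [coe_td, coe_td, ← (AlgebraicIndependent.matroid k L).eRk_closure_eq (Set.range y)]
    refine (AlgebraicIndependent.matroid k L).eRk_mono ?_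
    rintro _ ⟨i, rfl⟩
    exact mem_closure_iff.2 (h i)
  exact_mod_cast h1

theorem td_le_card [Fintype ι] (x : ι → L) : td k x ≤ Fintype.card ι := by
  classical
  obtain ⟨B, hB, -⟩ := exists_basis (k := k) x
  rw [← hB]
  exact Finset.card_le_univ B

theorem card_le_td [Finite ι] [Fintype κ] {x : ι → L} {z : κ → L} (hz : AlgebraicIndependent k z)
    (h : ∀ i, IsAlgebraic (adjoin k (Set.range x)) (z i)) : Fintype.card κ ≤ td k x := by
  have h1 : td k z ≤ td k x := td_le_of_alg h
  have h2 : ((Fintype.card κ : ℕ) : ℕ∞) = td k z := by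
    rw [coe_td]
    have h3 : (AlgebraicIndependent.matroid k L).Indep (Set.range z) := by
      rw [matroid_indep_iff]
      exact hz.coe_range
    rw [h3.eRk_eq_encard, ← Set.image_univ, hz.injective.encard_image, Set.encard_univ,
      ENat.card_eq_coe_fintype_card]
  have h4 : Fintype.card κ = td k z := by exact_mod_cast h2
  omega

/-- transitivity of algebraic dependence -/
theorem alg_trans {S T : Set L} (hS : ∀ s ∈ S, IsAlgebraic (adjoin k T) s) {a : L}
    (ha : IsAlgebraic (adjoin k S) a) : IsAlgebraic (adjoin k T) a := by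
  rw [← mem_closure_iff] at ha ⊢
  have h1 : S ⊆ (AlgebraicIndependent.matroid k L).closure T := fun s hs =>
    mem_closure_iff.2 (hS s hs)
  exact (AlgebraicIndependent.matroid k L).closure_subset_closure_of_subset_closure h1 ha

theorem alg_mono {S T : Set L} (h : S ⊆ T) {a : L}
    (ha : IsAlgebraic (adjoin k S) a) : IsAlgebraic (adjoin k T) a :=
  alg_trans (fun _ hs => isAlgebraic_algebraMap (⟨_, subset_adjoin (h hs)⟩ : adjoin k T)) ha

theorem alg_self {S : Set L} {a : L} (h : a ∈ S) : IsAlgebraic (adjoin k S) a :=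
  isAlgebraic_algebraMap (⟨a, subset_adjoin h⟩ : adjoin k S)

end Pool.Agent.Y645.UL
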