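import Pool.Agent.W602.GT.Der
import Pool.Agent.Y645.UL.Td
import Pool.Agent.Y645.UL.Rk

/-!
# Logarithmic derivatives of the coordinates of a point
-/

namespace Pool.Agent.Y645.UL

open Algebra AlgebraicIndependent Module

variable {k F : Type} [Field k] [Field F] [Algebra k F]

/-- the logarithmic derivative -/
def dlog (D : Derivation k F F) : Additive Fˣ →+ F where
  toFun u := D (Additive.toMul u : Fˣ) / (Additive.toMul u : Fˣ)
  map_zero' := by simp
  map_add' u v := by
    simp only [toMul_add, Units.val_mul, D.leibniz, smul_eq_mul]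
    have h1 := (Additive.toMul u : Fˣ).ne_zero
    have h2 := (Additive.toMul v : Fˣ).ne_zero
    field_simp
    ring

theorem dlog_apply (D : Derivation k F F) (u : Fˣ) :
    dlog D (Additive.ofMul u) = D (u : F) / (u : F) := rfl

/-- derivations can be prescribed on an algebraically independent family -/
theorem exists_der_ind [CharZero k] {ι : Type} (T : ι → F)
    (hT : AlgebraicIndependent k T) (c : ι → F) :
    ∃ D : Derivation k F F, ∀ i, D (T i) = c i := by
  classical
  obtain ⟨B, hB, hB'⟩ := exists_isTranscendenceBasis_superset (R := k) (s := Set.range T)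
    hT.coe_range
  have hinj : Function.Injective T := hT.injective
  let c' : B → F := fun b => if h : ∃ i, T i = b then c h.choose else 0
  obtain ⟨D, hD⟩ := Pool.Agent.W602.GT.exists_der ((↑) : B → F) hB' c'
  refine ⟨D, fun i => ?_⟩
  have h1 := hD ⟨T i, hB ⟨i, rfl⟩⟩
  have h2 : ∃ j, T j = ((⟨T i, hB ⟨i, rfl⟩⟩ : B) : F) := ⟨i, rfl⟩
  simp only [c'] at h1
  rw [dif_pos h2] at h1
  have h3 : h2.choose = i := hinj h2.choose_spec
  rw [h3] at h1
  exact h1

variable {N : Type} [Fintype N]

/-- the vector of the logarithmic derivatives -/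
def dvec (D : Derivation k F F) (a : N → Fˣ) : N → F := fun n => dlog D (Additive.ofMul (a n))

theorem sum_dvec (D : Derivation k F F) (a : N → Fˣ) (m : N → ℤ) :
    ∑ n, (m n : F) * dvec D a n = dlog D (Phi a m) := by
  rw [Phi, Fintype.linearCombination_apply, map_sum]
  refine Finset.sum_congr rfl fun n _ => ?_
  rw [map_zsmul, zsmul_eq_mul]
  rfl

theorem dvec_mem_perp (D : Derivation k F F) (a : N → Fˣ) : dvec D a ∈ perp F (Lam a) := by
  intro m hm
  rw [sum_dvec]
  have h : Phi a m = 0 := hm
  rw [h, map_zero]

/-- The transcendence degree is at most the dimension of a space of possible logarithmic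
derivatives. -/
theorem td_le_finrank [CharZero k] (a : N → Fˣ) (S : Submodule F (N → F))
    (hS : ∀ D : Derivation k F F, dvec D a ∈ S) :
    td k (fun n => (a n : F)) ≤ finrank F S := by
  classical
  obtain ⟨B, hB, hind, -⟩ := exists_basis (k := k) (fun n => (a n : F))
  choose D hD using fun b : B => exists_der_ind (fun b' : B => ((a b' : Fˣ) : F)) hind
    (fun b' => if b' = b then 1 else 0)
  let v : B → S := fun b => ⟨dvec (D b) a, hS (D b)⟩
  have hv : LinearIndependent F v := by
    rw [Fintype.linearIndependent_iff]
    intro g hg b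
    have h1 := congrArg (fun s : S => (s : N → F) b) hg
    simp only [Submodule.coe_sum, Finset.sum_apply, Submodule.coe_smul, Pi.smul_apply,
      smul_eq_mul, Submodule.coe_zero, Pi.zero_apply] at h1
    rw [Finset.sum_eq_single b] at h1
    · have h2 : (v b : N → F) b = 1 / (a b : F) := by
        change D b (a b : F) / (a b : F) = _
        rw [hD b b, if_pos rfl]
      rw [h2] at h1
      have h3 : (1 / (a b : F)) ≠ 0 := one_div_ne_zero (a b).ne_zero
      exact (mul_eq_zero.1 h1).resolve_right h3
    · intro b' _ hb'
      have h2 : (v b' : N → F) b = 0 := by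
        change D b' (a b : F) / (a b : F) = _
        rw [hD b' b, if_neg (Ne.symm hb'), zero_div]
      rw [h2, mul_zero]
    · intro h; exact absurd (Finset.mem_univ b) h
  have h4 := hv.fintype_card_le_finrank
  rw [Fintype.card_coe, hB] at h4
  exact h4

end Pool.Agent.Y645.UL
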