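import Pool.Agent.Y645.UL.Bas

/-!
# Closed points of small rank
-/

namespace Pool.Agent.Y645.UL

open MvPolynomial Module

/-- the closed points with torsion coordinates on a transcendence basis -/
def S_TOR : Prop := ∀ (k F ι : Type) [Field k] [CharZero k] [IsAlgClosed k] [Field F] [Algebra k F]
  [Fintype ι] (a : ι → Fˣ) (f : MvPolynomial ι k), aeval (fun j => (a j : F)) f ≠ 0 →
    ∃ x : ι → kˣ, Spc k a x ∧ eval (fun j => (x j : k)) f ≠ 0 ∧ mrk x + tdu k a ≤ mrk a

/-- the same integrality step: prescribed values on a transcendence basis -/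
def S_EXT : Prop := ∀ (k F ι : Type) [Field k] [IsAlgClosed k] [Field F] [Algebra k F]
  [Fintype ι] (a : ι → Fˣ) (f : MvPolynomial ι k) (B : Finset ι),
    aeval (fun j => (a j : F)) f ≠ 0 →
    AlgebraicIndependent k (fun b : B => (a b : F)) →
    (∀ j, IsAlgebraic (Algebra.adjoin k ((fun j => (a j : F)) '' (B : Set ι))) (a j : F)) →
    ∃ s : MvPolynomial B k, s ≠ 0 ∧ ∀ ζ : B → k, eval ζ s ≠ 0 →
      ∃ x : ι → kˣ, Spc k a x ∧ eval (fun j => (x j : k)) f ≠ 0 ∧ ∀ b : B, (x b : k) = ζ b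

end Pool.Agent.Y645.UL
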