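import Pool.Agent.Y645.UL.Stm

/-!
# Small lemmas on sums of signed monomials and on monomials in units
-/

namespace Pool.Agent.Y645.UL

open MvPolynomial Module

theorem aeval_ev {k L ι : Type} [Field k] [Field L] [Algebra k L] [Fintype ι] (x : ι → L)
    (l : Lst ι) : aeval x (ev (X : ι → MvPolynomial ι k) l) = ev x l := by
  rw [ev, map_list_sum, List.map_map, ev]
  congr 1
  refine List.map_congr_left fun m _ => ?_
  simp only [Function.comp_apply, mval, map_mul, map_prod, map_pow, aeval_X]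
  congr 1
  split <;> simp

theorem mval_ne {L ι : Type} [Field L] [Fintype ι] {x : ι → L} (hx : ∀ t, x t ≠ 0)
    (m : Bool × (ι → ℕ)) : mval x m ≠ 0 := by
  rw [mval]
  refine mul_ne_zero ?_ (Finset.prod_ne_zero_iff.2 fun t _ => pow_ne_zero _ (hx t))
  split <;> simp

theorem ev_append {R ι : Type} [CommRing R] [Fintype ι] (x : ι → R) (l l' : Lst ι) :
    ev x (l ++ l') = ev x l + ev x l' := by simp [ev]

theorem Ew_append {R ι : Type} [CommRing R] [Fintype ι] (x ω : ι → R) (l l' : Lst ι) :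
    Ew x ω (l ++ l') = Ew x ω l + Ew x ω l' := by simp [Ew]

/-- the next initial sum -/
theorem ev_take_succ {R ι : Type} [CommRing R] [Fintype ι] (x : ι → R) (l : Lst ι) (t : ℕ)
    (ht : t < l.length) : ev x (l.take (t + 1)) = ev x (l.take t) + mval x l[t] := by
  rw [List.take_add_one, ev_append, List.getElem?_eq_getElem ht]
  simp [ev]

theorem Ew_take_succ {R ι : Type} [CommRing R] [Fintype ι] (x ω : ι → R) (l : Lst ι) (t : ℕ)
    (ht : t < l.length) : Ew x ω (l.take (t + 1)) =
      Ew x ω (l.take t) + mval x l[t] * ∑ i, ((l[t]).2 i : R) * ω i := by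
  rw [List.take_add_one, Ew_append, List.getElem?_eq_getElem ht]
  simp [Ew]

section mon

variable {L N : Type} [Field L] [Fintype N]

theorem mon_add (z : N → Lˣ) (a b : N → ℤ) : mon z (a + b) = mon z a * mon z b := by
  simp only [mon, Pi.add_apply, zpow_add, Finset.prod_mul_distrib]

theorem mon_zero (z : N → Lˣ) : mon z 0 = 1 := by simp [mon]

theorem mon_neg (z : N → Lˣ) (a : N → ℤ) : mon z (-a) = (mon z a)⁻¹ := by
  simp only [mon, Pi.neg_apply, zpow_neg, Finset.prod_inv_distrib]

theorem mon_sub (z : N → Lˣ) (a b : N → ℤ) : mon z (a - b) = mon z a / mon z b := by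
  rw [sub_eq_add_neg, mon_add, mon_neg, div_eq_mul_inv]

theorem mon_smul (z : N → Lˣ) (m : ℤ) (a : N → ℤ) : mon z (m • a) = mon z a ^ m := by
  simp only [mon, Pi.smul_apply, smul_eq_mul]
  rw [← Finset.prod_zpow]
  exact Finset.prod_congr rfl fun j _ => by rw [mul_comm, zpow_mul]

theorem mon_single [DecidableEq N] (z : N → Lˣ) (n : N) (m : ℤ) :
    mon z (Pi.single n m) = z n ^ m := by
  rw [mon, Finset.prod_eq_single n]
  · simp
  · intro b _ hb
    simp [hb]
  · simp

theorem mem_Lam_mon {z : N → Lˣ} {a : N → ℤ} : a ∈ Lam z ↔ mon z a = 1 := mem_Lam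

theorem dot_single [DecidableEq N] (ω : N → L) (n : N) (m : ℤ) :
    ∑ i, (((Pi.single n m : N → ℤ) i : ℤ) : L) * ω i = m * ω n := by
  rw [Finset.sum_eq_single n]
  · simp
  · intro b _ hb
    simp [hb]
  · simp

end mon

/-- the value of the monomial of a signed monomial -/
theorem mon_mexp {L ι : Type} [Field L] [Fintype ι] (l : ι → Lst ι) (x : ι → Lˣ) (z : NN l → Lˣ)
    (h1 : (z (Sum.inl ()) : L) = -1) (h2 : ∀ j, (z (Sum.inr (Sum.inl j)) : L) = x j)
    (m : Bool × (ι → ℕ)) : (mon z (mexp l m) : L) = mval (fun j => (x j : L)) m := by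
  rw [mon, Fintype.prod_sum_type, Fintype.prod_sum_type]
  simp only [mexp, zpow_zero, Finset.prod_const_one, mul_one, Finset.univ_unique,
    Finset.prod_singleton, zpow_natCast, Units.val_mul, Units.coe_prod, Units.val_pow_eq_pow_val,
    h2, mval]
  congr 1
  rcases m.1 with h | h
  · simp [h1]
  · simp

/-- the linear form of the monomial of a signed monomial -/
theorem dot_mexp {L ι : Type} [Field L] [Fintype ι] (l : ι → Lst ι) (ω : NN l → L)
    (h : ω (Sum.inl ()) = 0) (m : Bool × (ι → ℕ)) :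
    ∑ n, ((mexp l m n : ℤ) : L) * ω n = ∑ t, (m.2 t : L) * ω (Sum.inr (Sum.inl t)) := by
  rw [Fintype.sum_sum_type, Fintype.sum_sum_type]
  simp [mexp, h]

end Pool.Agent.Y645.UL
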