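import Pool.Agent.Y645.UL.Bas

/-!
# Families of monomials in units
-/

namespace Pool.Agent.Y645.UL

open MvPolynomial Module

variable {L N σ : Type} [Field L] [Fintype N] [Fintype σ]

theorem mon_lin (z : N → Lˣ) (w : σ → N → ℤ) (m : σ → ℤ) :
    mon z (Fintype.linearCombination ℤ w m) = mon (fun i => mon z (w i)) m := by
  classical
  rw [Fintype.linearCombination_apply]
  have h : ∀ s : Finset σ, mon z (∑ i ∈ s, m i • w i) = ∏ i ∈ s, (mon z (w i)) ^ m i := by
    intro s
    induction s using Finset.induction_on with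
    | empty => simp [mon_zero]
    | insert i s hi ih => rw [Finset.sum_insert hi, Finset.prod_insert hi, mon_add, mon_smul, ih]
  exact h Finset.univ

theorem Phi_mon (z : N → Lˣ) (a : N → ℤ) : Phi z a = Additive.ofMul (mon z a) := Phi_apply z a

theorem Phi_lin (z : N → Lˣ) (w : σ → N → ℤ) :
    Phi (fun i => mon z (w i)) = Phi z ∘ₗ Fintype.linearCombination ℤ w := by
  refine LinearMap.ext fun m => ?_
  rw [LinearMap.comp_apply, Phi_mon, Phi_mon, mon_lin]

/-- the rank of a family of monomials -/
theorem mrk_mon_le (z : N → Lˣ) (w : σ → N → ℤ) : mrk (fun i => mon z (w i)) ≤ mrk z := by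
  rw [mrk, mrk, Phi_lin]
  exact Submodule.finrank_mono (LinearMap.range_comp_le_range _ _)

theorem Lam_mon (z : N → Lˣ) (w : σ → N → ℤ) :
    Lam (fun i => mon z (w i)) = (Lam z).comap (Fintype.linearCombination ℤ w) := by
  ext m
  rw [mem_Lam_mon, Submodule.mem_comap, mem_Lam_mon, mon_lin]

theorem dot_lin (w : σ → N → ℤ) (m : σ → ℤ) (ω : N → L) :
    ∑ n, ((Fintype.linearCombination ℤ w m n : ℤ) : L) * ω n =
      ∑ i, (m i : L) * ∑ n, (w i n : L) * ω n := by
  rw [Fintype.linearCombination_apply]
  have h : ∀ n, (((∑ i, m i • w i) n : ℤ) : L) * ω n = ∑ i, (m i : L) * ((w i n : L) * ω n) := by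
    intro n
    rw [Finset.sum_apply]
    push_cast
    rw [Finset.sum_mul]
    refine Finset.sum_congr rfl fun i _ => ?_
    simp only [Pi.smul_apply, smul_eq_mul, Int.cast_mul]
    ring
  rw [Finset.sum_congr rfl fun n _ => h n, Finset.sum_comm]
  exact Finset.sum_congr rfl fun i _ => by rw [Finset.mul_sum]

/-- the values of the linear forms of the exponents satisfy the relations of the monomials -/
theorem dot_mem_perp (z : N → Lˣ) (w : σ → N → ℤ) {ω : N → L} (hω : ω ∈ perp L (Lam z)) :
    (fun i => ∑ n, (w i n : L) * ω n) ∈ perp L (Lam (fun i => mon z (w i))) := by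
  intro m hm
  rw [← dot_lin]
  rw [Lam_mon, Submodule.mem_comap] at hm
  exact hω _ hm

/-- the drop of the rank under a specialization is larger for more elements -/
theorem mrk_drop {ι L' : Type} [Fintype ι] [Field L'] {z : N → Lˣ} {z' : N → L'ˣ}
    (h : Lam z ≤ Lam z') {w : ι → Lˣ} {x : ι → L'ˣ} (e : ι → N) (hw : ∀ j, z (e j) = w j)
    (hx : ∀ j, z' (e j) = x j) : mrk z' + mrk w ≤ mrk z + mrk x := by
  classical
  let b : ι → N → ℤ := fun j => Pi.single (e j) 1
  have h1 := drop h (Fintype.linearCombination ℤ b)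
  have h2 : (Lam z).comap (Fintype.linearCombination ℤ b) = Lam w := by
    rw [← Lam_mon]
    congr 1
    funext j
    rw [mon_single, zpow_one, hw]
  have h3 : (Lam z').comap (Fintype.linearCombination ℤ b) = Lam x := by
    rw [← Lam_mon]
    congr 1
    funext j
    rw [mon_single, zpow_one, hx]
  rw [h2, h3] at h1
  have e1 := mrk_add z
  have e2 := mrk_add z'
  have e3 := mrk_add w
  have e4 := mrk_add x
  omega

theorem alg_mon {k : Type} [Field k] [Algebra k L] (y : σ → Lˣ) (c : σ → ℤ) :
    IsAlgebraic (Algebra.adjoin k (Set.range (fun i => (y i : L)))) ((mon y c : Lˣ) : L) := by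
  classical
  have h : ∀ s : Finset σ, IsAlgebraic (Algebra.adjoin k (Set.range (fun i => (y i : L))))
      ((∏ i ∈ s, y i ^ c i : Lˣ) : L) := by
    intro s
    induction s using Finset.induction_on with
    | empty =>
      rw [Finset.prod_empty, Units.val_one]
      exact isAlgebraic_one
    | insert i s hi ih =>
      rw [Finset.prod_insert hi, Units.val_mul]
      refine IsAlgebraic.mul ?_ ih
      have h1 : IsAlgebraic (Algebra.adjoin k (Set.range (fun i => (y i : L)))) (y i : L) :=
        alg_self ⟨i, rfl⟩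
      rw [Units.val_zpow_eq_zpow_val]
      rcases c i with n | n
      · rw [Int.ofNat_eq_natCast, zpow_natCast]
        exact h1.pow n
      · rw [zpow_negSucc]
        exact (h1.pow _).inv
  exact h Finset.univ

/-- a rational combination of the exponents gives an algebraic element -/
theorem alg_of_mem {k : Type} [Field k] [Algebra k L] (z : N → Lˣ) (w : σ → N → ℤ)
    {W : Submodule ℤ (N → ℤ)} (hW : W ≤ Lam z) (n : N) [DecidableEq N] {m : ℤ} (hm : m ≠ 0)
    (h : m • (Pi.single n 1 : N → ℤ) ∈ W ⊔ LinearMap.range (Fintype.linearCombination ℤ w)) :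
    IsAlgebraic (Algebra.adjoin k (Set.range (fun i => ((mon z (w i) : Lˣ) : L)))) (z n : L) := by
  obtain ⟨a, ha, b, ⟨c, rfl⟩, hab⟩ := Submodule.mem_sup.1 h
  have h1 := congrArg (mon z) hab
  rw [mon_add, mem_Lam_mon.1 (hW ha), one_mul, mon_lin, mon_smul, mon_single, zpow_one] at h1
  have h2 : IsAlgebraic (Algebra.adjoin k (Set.range (fun i => ((mon z (w i) : Lˣ) : L))))
      ((z n ^ m : Lˣ) : L) := by
    rw [← h1]
    exact alg_mon (fun i => mon z (w i)) c
  rcases Int.natAbs_eq m with h3 | h3
  · rw [h3, zpow_natCast, Units.val_pow_eq_pow_val] at h2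
    exact h2.of_pow (by omega)
  · rw [h3, zpow_neg, zpow_natCast, Units.val_inv_eq_inv_val, Units.val_pow_eq_pow_val] at h2
    have h4 := h2.inv
    rw [inv_inv] at h4
    exact h4.of_pow (by omega)

/-- the linear form of a pair as a linear map -/
def Elin (z : N → Lˣ) (u v : N → ℤ) : (N → L) →ₗ[L] L where
  toFun := Eform z u v
  map_add' a b := by
    simp only [Eform, Pi.add_apply, mul_add, Finset.sum_add_distrib]
    ring
  map_smul' c a := by
    simp only [Eform, Pi.smul_apply, smul_eq_mul, RingHom.id_apply]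
    have h : ∀ u : N → ℤ, ∑ n, (u n : L) * (c * a n) = c * ∑ n, (u n : L) * a n := by
      intro u
      rw [Finset.mul_sum]
      exact Finset.sum_congr rfl fun n _ => by ring
    rw [h, h]
    ring

end Pool.Agent.Y645.UL
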