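import Pool.Agent.Y645.UL.Td
import Pool.Agent.Y645.UL.Rk
import Pool.Agent.Y645.UL.Der

/-!
# Definitions and the statements of the single steps
-/

namespace Pool.Agent.Y645.UL

open MvPolynomial Module

/-! ## Points and their specializations -/

/-- The transcendence degree of a point of the torus. -/
noncomputable def tdu (k : Type) {L ι : Type} [Field k] [Field L] [Algebra k L] (x : ι → Lˣ) : ℕ :=
  td k (fun j => (x j : L))

/-- `x` satisfies all the polynomial equations over `k` which `w` satisfies. -/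
def Spc (k : Type) {L L' ι : Type} [Field k] [Field L] [Algebra k L] [Field L'] [Algebra k L']
    (w : ι → Lˣ) (x : ι → L'ˣ) : Prop :=
  ∀ f : MvPolynomial ι k, aeval (fun j => (w j : L)) f = 0 → aeval (fun j => (x j : L')) f = 0

/-- The points of smaller defect are not dense in any variety. -/
def PP (k : Type) [Field k] : Prop :=
  ∀ (ι : Type) [Fintype ι] (L : Type) [Field L] [Algebra k L] (w : ι → Lˣ),
    ∃ g : MvPolynomial ι k, aeval (fun j => (w j : L)) g ≠ 0 ∧
      ∀ (L' : Type) [Field L'] [Algebra k L'] (x : ι → L'ˣ), Spc k w x →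
        mrk x + tdu k w < mrk w + tdu k x → aeval (fun j => (x j : L')) g = 0

/-- Finiteness for the powers of the line `u + v = 1`, in terms of ideals and points. -/
def HH (k : Type) [Field k] : Prop :=
  ∀ (κ : Type) [Fintype κ], ∃ 𝒜 : Set (Ideal (MvPolynomial (κ ⊕ κ) k)), 𝒜.Finite ∧
    (∀ p ∈ 𝒜, ∃ (F : Type) (_ : Field F) (_ : Algebra k F) (a : κ ⊕ κ → Fˣ),
      (∀ i, (a (Sum.inl i) : F) + (a (Sum.inr i) : F) = 1) ∧
      mrk a < Fintype.card κ + tdu k a ∧ ∀ f, f ∈ p ↔ aeval (fun j => (a j : F)) f = 0) ∧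
    ∀ (F : Type) [Field F] [Algebra k F] (y : κ ⊕ κ → Fˣ),
      (∀ i, (y (Sum.inl i) : F) + (y (Sum.inr i) : F) = 1) →
      mrk y < Fintype.card κ + tdu k y → ∃ p ∈ 𝒜, ∀ f ∈ p, aeval (fun j => (y j : F)) f = 0

/-- The ideals of the subvarieties of the torus of defect at most `δ`. -/
def Pt (k ι : Type) [Field k] [Fintype ι] (δ : ℤ) (p : Ideal (MvPolynomial ι k)) : Prop :=
  ∃ (L : Type) (_ : Field L) (_ : Algebra k L) (x : ι → Lˣ),
    (∀ f, f ∈ p ↔ aeval (fun j => (x j : L)) f = 0) ∧ (mrk x : ℤ) - (tdu k x : ℤ) ≤ δ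

/-- Finitely many subvarieties contain all those of defect at most `δ`. -/
def AA (k : Type) [Field k] : Prop :=
  ∀ (ι : Type) [Fintype ι] (δ : ℤ) (J : Ideal (MvPolynomial ι k)),
    ∃ Q : Set (Ideal (MvPolynomial ι k)), Q.Finite ∧ (∀ q ∈ Q, J ≤ q ∧ Pt k ι δ q) ∧
      ∀ p, J ≤ p → Pt k ι δ p → ∃ q ∈ Q, q ≤ p

def S_A : Prop := ∀ (k : Type) [Field k], PP k → AA k

def S_B : Prop := ∀ (k₀ k : Type) [Field k₀] [Field k] [Algebra k₀ k], PP k₀ → PP k

/-- only finitely many coefficients are needed -/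
def S_COEF : Prop := ∀ (R K L : Type) [CommRing R] [Field K] [Field L] [Algebra R K] [Algebra K L]
  [Algebra R L] [IsScalarTower R K L] (S : Set L) (a : L), IsAlgebraic (Algebra.adjoin K S) a →
    ∃ C : Finset K, (∀ c ∈ C, c ≠ 0) ∧
      IsAlgebraic (Algebra.adjoin R (S ∪ (algebraMap K L) '' (C : Set K))) a

def S_INT : Prop := ∀ (k L : Type) [Field k] [Field L] [CharZero k] [Algebra k L]
  [Algebra.IsAlgebraic ℚ k] (S : Set L) (a : L), IsAlgebraic (Algebra.adjoin k S) a →
    IsAlgebraic (Algebra.adjoin ℤ S) a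

/-- enlarge a point by finitely many coordinates in the bigger base field -/
def S_TD1 : Prop := ∀ (k₀ k L : Type) [Field k₀] [Field k] [Field L] [Algebra k₀ k] [Algebra k L]
  [Algebra k₀ L] [IsScalarTower k₀ k L] (ι : Type) [Fintype ι] (v : ι → Lˣ),
    ∃ (κ : Type) (_ : Fintype κ) (c : κ → kˣ),
      tdu k₀ (Sum.elim v (fun i => Units.map (algebraMap k L).toMonoidHom (c i))) ≤
        tdu k₀ c + tdu k v

def S_TD2 : Prop := ∀ (k₀ k L : Type) [Field k₀] [Field k] [Field L] [Algebra k₀ k] [Algebra k L]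
  [Algebra k₀ L] [IsScalarTower k₀ k L] (ι : Type) [Fintype ι] (x : ι → Lˣ)
  (κ : Type) [Fintype κ] (c : κ → kˣ),
      tdu k₀ c + tdu k x ≤
        tdu k₀ (Sum.elim x (fun i => Units.map (algebraMap k L).toMonoidHom (c i)))

/-! ## Sums of signed monomials -/

/-- A sum of signed monomials: the sign (`true` is `+`) and the exponents. -/
abbrev Lst (ι : Type) : Type := List (Bool × (ι → ℕ))

/-- the value of a signed monomial -/
def mval {R ι : Type} [CommRing R] [Fintype ι] (x : ι → R) (m : Bool × (ι → ℕ)) : R :=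
  (if m.1 then 1 else -1) * ∏ t, x t ^ m.2 t

/-- the value of a sum of signed monomials -/
def ev {R ι : Type} [CommRing R] [Fintype ι] (x : ι → R) (l : Lst ι) : R := (l.map (mval x)).sum

/-- the logarithmic derivative of a sum of signed monomials -/
def Ew {R ι : Type} [CommRing R] [Fintype ι] (x : ι → R) (ω : ι → R) (l : Lst ι) : R :=
  (l.map (fun m => mval x m * ∑ t, (m.2 t : R) * ω t)).sum

/-- the exponents are supported on `S` -/
def SuppOn {ι : Type} (S : Set ι) (l : Lst ι) : Prop := ∀ m ∈ l, ∀ t, t ∉ S → m.2 t = 0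

open Classical in
/-- a shortest sum of signed monomials which vanishes at `x` -/
def S_LST : Prop := ∀ (ι L : Type) [Fintype ι] [Field L] [CharZero L] (x : ι → L) (B : Finset ι)
  (j : ι), j ∉ B → (∀ t, x t ≠ 0) →
    IsAlgebraic (Algebra.adjoin ℤ (x '' (B : Set ι))) (x j) →
    ∃ l : Lst ι, SuppOn (insert j (B : Set ι)) l ∧ ev x l = 0 ∧ Ew x (Pi.single j 1) l ≠ 0 ∧
      2 ≤ l.length ∧ ∀ t, 0 < t → t < l.length → ev x (l.take t) ≠ 0

/-! ## The encoding by pairs of units with sum 1 -/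

/-- the index set of the units -/
abbrev NN {ι : Type} (l : ι → Lst ι) : Type :=
  Unit ⊕ (ι ⊕ (ι ⊕ (Σ j : ι, Fin ((l j).length - 1))))

open Classical in
/-- the polynomials: `-1`, the variables, `1 - X j` (or `1` if `c j`), the initial sums -/
noncomputable def GG (k : Type) [Field k] {ι : Type} [Fintype ι] (l : ι → Lst ι) (c : ι → Prop) :
    NN l → MvPolynomial ι k
  | Sum.inl _ => -1
  | Sum.inr (Sum.inl j) => X j
  | Sum.inr (Sum.inr (Sum.inl j)) => if c j then 1 else 1 - X j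
  | Sum.inr (Sum.inr (Sum.inr p)) => ev X ((l p.1).take (p.2 + 1))

/-- the index set of the pairs -/
abbrev SS {ι : Type} (l : ι → Lst ι) (c : ι → Prop) : Type :=
  {j : ι // ¬ c j} ⊕ (Σ j : ι, Fin ((l j).length - 2))

/-- the exponent vector of a signed monomial -/
def mexp {ι : Type} (l : ι → Lst ι) (m : Bool × (ι → ℕ)) : NN l → ℤ
  | Sum.inl _ => if m.1 then 0 else 1
  | Sum.inr (Sum.inl t) => (m.2 t : ℤ)
  | Sum.inr (Sum.inr _) => 0

/-- the index of an initial sum -/
abbrev iP {ι : Type} (l : ι → Lst ι) (j : ι) (t : Fin ((l j).length - 1)) : NN l :=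
  Sum.inr (Sum.inr (Sum.inr ⟨j, t⟩))

/-- the index of the initial sum number `t` of the pair number `t` -/
def lo {ι : Type} (l : ι → Lst ι) (j : ι) (t : Fin ((l j).length - 2)) :
    Fin ((l j).length - 1) := ⟨t, by have := t.2; omega⟩

/-- the index of the next initial sum -/
def hi {ι : Type} (l : ι → Lst ι) (j : ι) (t : Fin ((l j).length - 2)) :
    Fin ((l j).length - 1) := ⟨t + 1, by have := t.2; omega⟩

/-- the term which is added -/
def nx {ι : Type} (l : ι → Lst ι) (j : ι) (t : Fin ((l j).length - 2)) : Bool × (ι → ℕ) :=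
  (l j)[(t : ℕ) + 1]'(by have := t.2; omega)

open Classical in
/-- the exponents of the first unit of a pair -/
noncomputable def uu {ι : Type} (l : ι → Lst ι) (c : ι → Prop) : SS l c → NN l → ℤ
  | Sum.inl j => Pi.single (Sum.inr (Sum.inl j)) 1
  | Sum.inr p => Pi.single (iP l p.1 (lo l p.1 p.2)) 1 - Pi.single (iP l p.1 (hi l p.1 p.2)) 1

open Classical in
/-- the exponents of the second unit of a pair -/
noncomputable def vv {ι : Type} (l : ι → Lst ι) (c : ι → Prop) : SS l c → NN l → ℤ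
  | Sum.inl j => Pi.single (Sum.inr (Sum.inr (Sum.inl j))) 1
  | Sum.inr p => mexp l (nx l p.1 p.2) - Pi.single (iP l p.1 (hi l p.1 p.2)) 1

/-- the product of the powers of units -/
def mon {L N : Type} [Field L] [Fintype N] (z : N → Lˣ) (a : N → ℤ) : Lˣ := ∏ n, z n ^ a n

/-- the linear form `z^u (u · ω) + z^v (v · ω)` -/
def Eform {L N : Type} [Field L] [Fintype N] (z : N → Lˣ) (u v : N → ℤ) (ω : N → L) : L :=
  (mon z u : L) * ∑ n, (u n : L) * ω n + (mon z v : L) * ∑ n, (v n : L) * ω n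

/-- the pairs have the sum 1 -/
def S_PAIR : Prop := ∀ (k L ι : Type) [Field k] [Field L] [Algebra k L] [Fintype ι]
  (l : ι → Lst ι) (c : ι → Prop) (x : ι → Lˣ) (z : NN l → Lˣ),
    (∀ n, (z n : L) = aeval (fun j => (x j : L)) (GG k l c n)) →
    ∀ s, (mon z (uu l c s) : L) + (mon z (vv l c s) : L) = 1

open Classical in
/-- the hypotheses on the lists -/
def Hyp (k L ι : Type) [Field k] [Field L] [Algebra k L] [Fintype ι]
    (l : ι → Lst ι) (c : ι → Prop) (B : Finset ι) (w : ι → Lˣ) (z : NN l → Lˣ) : Prop :=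
  (∀ n, (z n : L) = aeval (fun j => (w j : L)) (GG k l c n)) ∧
  (∀ j, c j ↔ w j = 1) ∧
  (∀ j ∈ B, l j = []) ∧
  (∀ j, j ∉ B → SuppOn (insert j (B : Set ι)) (l j) ∧ ev (fun j => (w j : L)) (l j) = 0 ∧
    Ew (fun j => (w j : L)) (Pi.single j 1) (l j) ≠ 0 ∧ 2 ≤ (l j).length)

def S_SOL : Prop := ∀ (k L ι : Type) [Field k] [Field L] [CharZero L] [Algebra k L] [Fintype ι]
  (l : ι → Lst ι) (c : ι → Prop) (B : Finset ι) (w : ι → Lˣ) (z : NN l → Lˣ),
    Hyp k L ι l c B w z →
    ∀ ω : NN l → L, ω ∈ perp L (Lam z) → (∀ s, Eform z (uu l c s) (vv l c s) ω = 0) →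
      (∀ b ∈ B, ω (Sum.inr (Sum.inl b)) = 0) → ω = 0

def S_RAT : Prop := ∀ (k L ι : Type) [Field k] [Field L] [CharZero k] [CharZero L] [Algebra k L]
  [Fintype ι]
  (l : ι → Lst ι) (c : ι → Prop) (B : Finset ι) (w : ι → Lˣ) (z : NN l → Lˣ),
    Hyp k L ι l c B w z → AlgebraicIndependent k (fun b : B => (w b : L)) →
    ∀ ω : NN l → ℚ, (fun n => (ω n : L)) ∈ perp L (Lam z) →
      (∀ s, Eform z (uu l c s) (vv l c s) (fun n => (ω n : L)) = 0) → ω = 0

/-! ## Linear algebra and specializations -/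

/-- relations are preserved by specializations -/
def S_SPC : Prop := ∀ (k L L' ι N : Type) [Field k] [Field L] [Field L'] [Algebra k L]
  [Algebra k L'] [Fintype ι] [Fintype N] (G : N → MvPolynomial ι k) (w : ι → Lˣ) (x : ι → L'ˣ)
  (z : N → Lˣ) (z' : N → L'ˣ), Spc k w x →
    (∀ n, (z n : L) = aeval (fun j => (w j : L)) (G n)) →
    (∀ n, (z' n : L') = aeval (fun j => (x j : L')) (G n)) → Lam z ≤ Lam z'

/-- polynomials in monomials of polynomials -/
def S_PULL : Prop := ∀ (k ι N τ : Type) [Field k] [Fintype ι] [Fintype N] [Fintype τ]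
  (G : N → MvPolynomial ι k) (u : τ → N → ℤ) (f : MvPolynomial τ k),
    ∃ g : MvPolynomial ι k, ∀ (L : Type) [Field L] [Algebra k L] (x : ι → Lˣ) (z : N → Lˣ),
      (∀ n, (z n : L) = aeval (fun j => (x j : L)) (G n)) →
      (aeval (fun j => (x j : L)) g = 0 ↔ aeval (fun s => (mon z (u s) : L)) f = 0)

/-- a maximal independent set of the linear forms -/
def S_SEL : Prop := ∀ (L V σ : Type) [Field L] [AddCommGroup V] [Module L V]
  [FiniteDimensional L V] [Fintype σ] (E : σ → V →ₗ[L] L),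
    ∃ κ : Finset σ, (∀ ω, (∀ s ∈ κ, E s ω = 0) → ∀ s, E s ω = 0) ∧
      ∀ c : κ → L, (∀ ω, ∑ s : κ, c s * E s ω = 0) → c = 0

/-- the rank of a general point of a specialization-stable family of pairs -/
def S_STAR : Prop := ∀ (k L F κ : Type) [Field k] [CharZero k] [Field L] [Field F] [CharZero L]
  [CharZero F] [Algebra k L] [Algebra k F] [Fintype κ] (y : κ ⊕ κ → Lˣ) (a : κ ⊕ κ → Fˣ),
    (∀ i, (a (Sum.inl i) : F) + (a (Sum.inr i) : F) = 1) → Spc k a y →
    (∀ c : κ → L, (∀ η ∈ perp L (Lam y), ∑ i, c i * ((y (Sum.inl i) : L) * η (Sum.inl i) +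
      (y (Sum.inr i) : L) * η (Sum.inr i)) = 0) → c = 0) →
    tdu k a + Fintype.card κ ≤ mrk a

/-! ## Subvarieties of the torus -/

/-- The ideal of the polynomials which vanish on `A`. -/
def van {k ι : Type} [Field k] (A : Set (ι → kˣ)) : Ideal (MvPolynomial ι k) where
  carrier := {f | ∀ x ∈ A, eval (fun j => (x j : k)) f = 0}
  add_mem' := by
    intro f g hf hg x hx
    rw [map_add, hf x hx, hg x hx, add_zero]
  zero_mem' := by
    intro x _
    exact map_zero _
  smul_mem' := by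
    intro c f hf x hx
    rw [smul_eq_mul, map_mul, hf x hx, mul_zero]

/-- `A` is a Zariski closed subset of the torus. -/
def IsClosedT {k ι : Type} [Field k] (A : Set (ι → kˣ)) : Prop :=
  ∃ J : Set (MvPolynomial ι k), A = {x | ∀ f ∈ J, eval (fun j => (x j : k)) f = 0}

/-- `A` is an irreducible closed subset of the torus. -/
def IsSubvar {k ι : Type} [Field k] (A : Set (ι → kˣ)) : Prop := IsClosedT A ∧ (van A).IsPrime

/-- The lattice of the characters which are trivial on `A`. -/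
def rel {k ι : Type} [Field k] [Fintype ι] (A : Set (ι → kˣ)) : Submodule ℤ (ι → ℤ) where
  carrier := {a | ∀ x ∈ A, ∏ j, x j ^ a j = 1}
  add_mem' := by
    intro a b ha hb x hx
    have h1 := ha x hx
    have h2 := hb x hx
    simp only [Pi.add_apply, zpow_add, Finset.prod_mul_distrib]
    rw [h1, h2, one_mul]
  zero_mem' := by
    intro x _
    simp
  smul_mem' := by
    intro c a ha x hx
    have h1 := ha x hx
    simp only [Pi.smul_apply, smul_eq_mul]
    have h2 : ∏ j, x j ^ (c * a j) = (∏ j, x j ^ a j) ^ c := by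
      rw [← Finset.prod_zpow]
      exact Finset.prod_congr rfl fun j _ => by rw [mul_comm, zpow_mul]
    rw [h2, h1, one_zpow]

/-- The dimension. -/
noncomputable def dimT {k ι : Type} [Field k] (A : Set (ι → kˣ)) : ℕ :=
  Cardinal.toNat (Algebra.trdeg k (MvPolynomial ι k ⧸ van A))

/-- The defect: the dimension of the smallest torsion coset which contains `A`, minus the
dimension of `A`. -/
noncomputable def defect {k ι : Type} [Field k] [Fintype ι] (A : Set (ι → kˣ)) : ℤ :=
  (Fintype.card ι : ℤ) - (finrank ℤ (rel A) : ℤ) - (dimT A : ℤ)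

/-- The subvarieties of `V` of defect at most `δ` are contained in finitely many of them. -/
def FinDef {k ι : Type} [Field k] [Fintype ι] (V : Set (ι → kˣ)) (δ : ℤ) : Prop :=
  ∃ 𝒜 : Set (Set (ι → kˣ)), 𝒜.Finite ∧ (∀ A ∈ 𝒜, IsSubvar A ∧ A ⊆ V ∧ defect A ≤ δ) ∧
    ∀ A, IsSubvar A → A ⊆ V → defect A ≤ δ → ∃ A' ∈ 𝒜, A ⊆ A'

/-- The power with index set `I` of the line `u + v = 1`. -/
def lineP (k I : Type) [Field k] : Set (I ⊕ I → kˣ) :=
  {x | ∀ i, (x (Sum.inl i) : k) + (x (Sum.inr i) : k) = 1}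

/-- the closed points which satisfy the equations of `y` -/
def ZZ (k : Type) {L ι : Type} [Field k] [Field L] [Algebra k L] (y : ι → Lˣ) : Set (ι → kˣ) :=
  {x | ∀ f : MvPolynomial ι k, aeval (fun j => (y j : L)) f = 0 →
    eval (fun j => (x j : k)) f = 0}

/-- the theorem of Hilbert -/
def S_NULL : Prop := ∀ (k L ι : Type) [Field k] [IsAlgClosed k] [Field L] [Algebra k L]
  [Fintype ι] (y : ι → Lˣ) (f : MvPolynomial ι k),
    f ∈ van (ZZ k y) ↔ aeval (fun j => (y j : L)) f = 0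

def S_REL : Prop := ∀ (k L ι : Type) [Field k] [Field L] [Algebra k L]
  [Fintype ι] (y : ι → Lˣ) (A : Set (ι → kˣ)),
    (∀ f : MvPolynomial ι k, f ∈ van A ↔ aeval (fun j => (y j : L)) f = 0) → rel A = Lam y

def S_DIM : Prop := ∀ (k L ι : Type) [Field k] [Field L] [Algebra k L]
  [Fintype ι] (y : ι → Lˣ) (A : Set (ι → kˣ)),
    (∀ f : MvPolynomial ι k, f ∈ van A ↔ aeval (fun j => (y j : L)) f = 0) → dimT A = tdu k y

/-- the generic point -/
def S_GEN : Prop := ∀ (k ι : Type) [Field k] [Fintype ι] (p : Ideal (MvPolynomial ι k)),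
  p.IsPrime → (∀ j, (X j : MvPolynomial ι k) ∉ p) →
    ∃ (L : Type) (_ : Field L) (_ : Algebra k L) (y : ι → Lˣ),
      ∀ f, f ∈ p ↔ aeval (fun j => (y j : L)) f = 0

end Pool.Agent.Y645.UL
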